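import Mathlib

/-!
# MP_04b39a_gt, Q2: a curve in a horizontal plane with an `ℓ₃`-isometric copy meeting every plane in
at most four points

For `t ≥ 10` put `a = 2/(t-1)`, `b = 1/t`, `c = 2/(t+1)` and
`x(t) = (2^{1/3} (t + a - b + c), t - a + b - c, 0)`,
`y(t) = (t - a - b + c, t + a + b + c, t + a - b - c)`.
Then `‖y(s) - y(t)‖₃ = ‖x(s) - x(t)‖₃` for all `s, t ≥ 10`, and no plane contains more than four
points of the curve `y`.  Hence the answer to Q2 (and again to Q1) is negative for `p = 3`.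

The mechanism: if `F₁, F₂, F₃, F₄` are four numbers with third elementary symmetric function `0` and
sum `G`, then `∑ (G - 2 Fᵢ)³ = 2 G³`; and the increments of the four functions
`D/(t - u)`, `u` one of the nodes `-1, 0, 1, ∞`, have this property.
-/

namespace Pool.Agent.Results.MP_04b39a_gt.FiniteInEveryPlane

open Module

/-- The `ℓ_p`-distance `(|x₁ - y₁|^p + |x₂ - y₂|^p + |x₃ - y₃|^p)^{1/p}` on `ℝ³`. -/
noncomputable def lpDist (p : ℝ) (x y : Fin 3 → ℝ) : ℝ :=
  (∑ i, |x i - y i| ^ p) ^ (1 / p)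

/-- `M'` is an `ℓ_p`-isometric copy of `M`: there is a bijection from `M` onto `M'` which preserves
the `ℓ_p`-distances between points of `M`. -/
def IsLpCopy (p : ℝ) (M M' : Set (Fin 3 → ℝ)) : Prop :=
  ∃ φ : (Fin 3 → ℝ) → (Fin 3 → ℝ), Set.BijOn φ M M' ∧
    ∀ x ∈ M, ∀ y ∈ M, lpDist p (φ x) (φ y) = lpDist p x y

/-- `M` lies in a horizontal plane `{x : x₃ = c}`. -/
def InHorizontalPlane (M : Set (Fin 3 → ℝ)) : Prop :=
  ∃ c : ℝ, ∀ x ∈ M, x 2 = c

/-- The planes of `ℝ³`: the affine subspaces of dimension `2`. -/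
def IsPlane (P : AffineSubspace ℝ (Fin 3 → ℝ)) : Prop :=
  finrank ℝ P.direction = 2

/-- the planar curve; `c` plays the role of `2^{1/3}` -/
noncomputable def xc (c t : ℝ) : Fin 3 → ℝ :=
  ![c * (t + 2 / (t - 1) - 1 / t + 2 / (t + 1)), t - 2 / (t - 1) + 1 / t - 2 / (t + 1), 0]

/-- the copied curve -/
noncomputable def yc (t : ℝ) : Fin 3 → ℝ :=
  ![t - 2 / (t - 1) - 1 / t + 2 / (t + 1), t + 2 / (t - 1) + 1 / t + 2 / (t + 1),
    t + 2 / (t - 1) - 1 / t - 2 / (t + 1)]

/-- sum of the cubes of the absolute values of the differences -/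
noncomputable def S (x y : Fin 3 → ℝ) : ℝ := |x 0 - y 0| ^ 3 + |x 1 - y 1| ^ 3 + |x 2 - y 2| ^ 3

theorem lpDist_three (x y : Fin 3 → ℝ) : lpDist 3 x y = (S x y) ^ (1 / 3 : ℝ) := by
  unfold lpDist S
  have h : ∀ t : ℝ, t ^ (3 : ℝ) = t ^ 3 := fun t => by exact_mod_cast Real.rpow_natCast t 3
  rw [Fin.sum_univ_three, h, h, h]

theorem S_comm (x y : Fin 3 → ℝ) : S x y = S y x := by
  unfold S
  rw [abs_sub_comm (x 0), abs_sub_comm (x 1), abs_sub_comm (x 2)]

/-- the increments of the three nonlinear functions -/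
theorem incr (s t : ℝ) (hs : 10 ≤ s) (ht : s ≤ t) :
    ∃ A B C : ℝ, 0 < A ∧ A < 1 / 4 ∧ 0 < B ∧ B < 1 / 4 ∧ 0 < C ∧ C < 1 / 4 ∧
      A * B * C + A * C - A * B - B * C = 0 ∧
      2 / (s - 1) - 2 / (t - 1) = (t - s) * A ∧ 1 / s - 1 / t = (t - s) * B ∧
      2 / (s + 1) - 2 / (t + 1) = (t - s) * C := by
  have h1 : 0 < s - 1 := by linarith
  have h2 : 0 < t - 1 := by linarith
  have h3 : 0 < s := by linarith
  have h4 : 0 < t := by linarith
  have h5 : 0 < s + 1 := by linarith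
  have h6 : 0 < t + 1 := by linarith
  refine ⟨2 / ((t - 1) * (s - 1)), 1 / (t * s), 2 / ((t + 1) * (s + 1)), by positivity, ?_,
    by positivity, ?_, by positivity, ?_, ?_, ?_, ?_, ?_⟩
  · rw [div_lt_iff₀ (by positivity)]; nlinarith
  · rw [div_lt_iff₀ (by positivity)]; nlinarith
  · rw [div_lt_iff₀ (by positivity)]; nlinarith
  · field_simp; ring
  · field_simp; ring
  · field_simp
  · field_simp; ring

theorem S_eq_of_le (c : ℝ) (hc0 : 0 < c) (hc : c ^ 3 = 2) (s t : ℝ) (hs : 10 ≤ s) (ht : s ≤ t) :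
    S (yc t) (yc s) = S (xc c t) (xc c s) := by
  obtain ⟨A, B, C, hA, hA', hB, hB', hC, hC', hR, e1, e2, e3⟩ := incr s t hs ht
  have hd : 0 ≤ t - s := by linarith
  simp only [S, xc, yc, Matrix.cons_val_zero, Matrix.cons_val_one, Matrix.cons_val]
  have k1 : t - 2 / (t - 1) - 1 / t + 2 / (t + 1) - (s - 2 / (s - 1) - 1 / s + 2 / (s + 1))
      = (t - s) * (1 + A + B - C) := by linear_combination e1 + e2 - e3
  have k2 : t + 2 / (t - 1) + 1 / t + 2 / (t + 1) - (s + 2 / (s - 1) + 1 / s + 2 / (s + 1))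
      = (t - s) * (1 - A - B - C) := by linear_combination -e1 - e2 - e3
  have k3 : t + 2 / (t - 1) - 1 / t - 2 / (t + 1) - (s + 2 / (s - 1) - 1 / s - 2 / (s + 1))
      = (t - s) * (1 - A + B + C) := by linear_combination -e1 + e2 + e3
  have k4 : c * (t + 2 / (t - 1) - 1 / t + 2 / (t + 1))
      - c * (s + 2 / (s - 1) - 1 / s + 2 / (s + 1))
      = c * ((t - s) * (1 - A + B - C)) := by linear_combination c * (-e1 + e2 - e3)
  have k5 : t - 2 / (t - 1) + 1 / t - 2 / (t + 1) - (s - 2 / (s - 1) + 1 / s - 2 / (s + 1))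
      = (t - s) * (1 + A - B + C) := by linear_combination e1 - e2 + e3
  rw [k1, k2, k3, k4, k5, abs_of_nonneg (mul_nonneg hd (by linarith)),
    abs_of_nonneg (mul_nonneg hd (by linarith)), abs_of_nonneg (mul_nonneg hd (by linarith)),
    abs_of_nonneg (mul_nonneg hc0.le (mul_nonneg hd (by linarith))),
    abs_of_nonneg (mul_nonneg hd (by linarith))]
  simp only [sub_self, abs_zero]
  linear_combination (-24) * (t - s) ^ 3 * hR - ((t - s) * (1 - A + B - C)) ^ 3 * hc

theorem S_eq (c : ℝ) (hc0 : 0 < c) (hc : c ^ 3 = 2) (s t : ℝ) (hs : 10 ≤ s) (ht : 10 ≤ t) :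
    S (yc s) (yc t) = S (xc c s) (xc c t) := by
  rcases le_total s t with h | h
  · rw [S_comm, S_comm (xc c s)]; exact S_eq_of_le c hc0 hc s t hs h
  · exact S_eq_of_le c hc0 hc t s ht h

theorem xc_inj (c : ℝ) : Set.InjOn (xc c) (Set.Ici 10) := by
  have key : ∀ s t : ℝ, 10 ≤ s → s < t → xc c s ≠ xc c t := by
    intro s t hs ht h
    obtain ⟨A, B, C, hA, hA', hB, hB', hC, hC', hR, e1, e2, e3⟩ := incr s t hs ht.le
    have h1 := congrFun h 1
    simp only [xc, Matrix.cons_val_one, Matrix.cons_val_zero] at h1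
    have : 0 < (t - s) * (1 + A - B + C) := mul_pos (by linarith) (by linarith)
    nlinarith
  intro s hs t ht h
  rcases lt_trichotomy s t with h' | h' | h'
  · exact absurd h (key s t hs h')
  · exact h'
  · exact absurd h.symm (key t s ht h')

theorem yc_inj : Set.InjOn yc (Set.Ici 10) := by
  have key : ∀ s t : ℝ, 10 ≤ s → s < t → yc s ≠ yc t := by
    intro s t hs ht h
    obtain ⟨A, B, C, hA, hA', hB, hB', hC, hC', hR, e1, e2, e3⟩ := incr s t hs ht.le
    have h1 := congrFun h 0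
    simp only [yc, Matrix.cons_val_zero] at h1
    have : 0 < (t - s) * (1 + A + B - C) := mul_pos (by linarith) (by linarith)
    nlinarith
  intro s hs t ht h
  rcases lt_trichotomy s t with h' | h' | h'
  · exact absurd h (key s t hs h')
  · exact h'
  · exact absurd h.symm (key t s ht h')

open Polynomial in
/-- the points of the copied curve on a plane are parametrised by the roots of a nonzero polynomial
of degree at most four -/
theorem plane_roots (α β γ δ : ℝ) (h : ¬ (α = 0 ∧ β = 0 ∧ γ = 0)) :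
    ∃ R : Finset ℝ, R.card ≤ 4 ∧ ∀ t : ℝ, 10 ≤ t →
      α * yc t 0 + β * yc t 1 + γ * yc t 2 = δ → t ∈ R := by
  classical
  let p : ℝ[X] := C (α + β + γ) * X ^ 4 + C (-δ) * X ^ 3 + C (-2 * α + 4 * β - 2 * γ) * X ^ 2
    + C (-4 * α + 4 * γ + δ) * X + C (α - β + γ)
  have hdeg : p.natDegree ≤ 4 := by
    simp only [p]
    compute_degree
  have hp : p ≠ 0 := by
    intro hp
    have c4 : p.coeff 4 = 0 := by rw [hp]; simp
    have c3 : p.coeff 3 = 0 := by rw [hp]; simp
    have c1 : p.coeff 1 = 0 := by rw [hp]; simp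
    have c0 : p.coeff 0 = 0 := by rw [hp]; simp
    simp only [p, coeff_add, coeff_C_mul, coeff_X_pow, coeff_X, coeff_C] at c4 c3 c1 c0
    norm_num at c4 c3 c1 c0
    apply h
    refine ⟨by linarith, by linarith, by linarith⟩
  refine ⟨p.roots.toFinset, (Multiset.toFinset_card_le _).trans ((card_roots' p).trans hdeg), ?_⟩
  intro t ht he
  rw [Multiset.mem_toFinset, mem_roots hp, IsRoot.def]
  have h1 : t - 1 ≠ 0 := by intro h0; linarith
  have h2 : t ≠ 0 := by intro h0; linarith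
  have h3 : t + 1 ≠ 0 := by intro h0; linarith
  simp only [yc, Matrix.cons_val_zero, Matrix.cons_val_one, Matrix.cons_val] at he
  simp only [p, eval_add, eval_mul, eval_C, eval_pow, eval_X]
  have key : (α + β + γ) * t ^ 4 + -δ * t ^ 3 + (-2 * α + 4 * β - 2 * γ) * t ^ 2
      + (-4 * α + 4 * γ + δ) * t + (α - β + γ)
      = (t * (t - 1) * (t + 1)) * ((α * (t - 2 / (t - 1) - 1 / t + 2 / (t + 1))
        + β * (t + 2 / (t - 1) + 1 / t + 2 / (t + 1))
        + γ * (t + 2 / (t - 1) - 1 / t - 2 / (t + 1))) - δ) := by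
    field_simp
    ring
  rw [key, he]
  ring

/-- **Negative answer to Q2 of MP_04b39a_gt (and to Q1), for `p = 3`.**  There is an uncountable set
`M` in a horizontal plane of `ℝ³` with an `ℓ₃`-isometric copy `M'` which meets every plane in at most
four points. -/
theorem result :
    ∃ M M' : Set (Fin 3 → ℝ), M.Infinite ∧ ¬ M.Countable ∧ InHorizontalPlane M ∧
      IsLpCopy 3 M M' ∧
      ∀ P : AffineSubspace ℝ (Fin 3 → ℝ), IsPlane P →
        (M' ∩ (P : Set (Fin 3 → ℝ))).Finite ∧ (M' ∩ (P : Set (Fin 3 → ℝ))).ncard ≤ 4 := by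
  classical
  obtain ⟨c, hc0, hc⟩ : ∃ c : ℝ, 0 < c ∧ c ^ 3 = 2 := by
    refine ⟨(2 : ℝ) ^ (1 / 3 : ℝ), by positivity, ?_⟩
    rw [← Real.rpow_natCast, ← Real.rpow_mul (by norm_num)]
    norm_num
  have hunc : ¬ (Set.Ici (10 : ℝ)).Countable := by
    rw [← Cardinal.le_aleph0_iff_set_countable, Cardinal.mk_Ici_real, not_le]
    exact Cardinal.aleph0_lt_continuum
  have hM : ¬ (xc c '' Set.Ici 10).Countable := fun h =>
    hunc ((Set.mapsTo_image (xc c) (Set.Ici 10)).countable_of_injOn (xc_inj c) h)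
  refine ⟨xc c '' Set.Ici 10, yc '' Set.Ici 10, fun h => hM h.countable, hM, ⟨0, ?_⟩, ?_, ?_⟩
  · rintro _ ⟨t, -, rfl⟩
    simp [xc]
  · have hinv : ∀ t ∈ Set.Ici (10 : ℝ), Function.invFunOn (xc c) (Set.Ici 10) (xc c t) = t :=
      fun t ht => (xc_inj c).leftInvOn_invFunOn ht
    refine ⟨fun v => yc (Function.invFunOn (xc c) (Set.Ici 10) v), ⟨?_, ?_, ?_⟩, ?_⟩
    · rintro _ ⟨t, ht, rfl⟩
      exact ⟨t, ht, by simp only [hinv t ht]⟩
    · rintro _ ⟨s, hs, rfl⟩ _ ⟨t, ht, rfl⟩ h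
      simp only [hinv s hs, hinv t ht] at h
      rw [yc_inj hs ht h]
    · rintro _ ⟨t, ht, rfl⟩
      exact ⟨xc c t, ⟨t, ht, rfl⟩, by simp only [hinv t ht]⟩
    · rintro _ ⟨s, hs, rfl⟩ _ ⟨t, ht, rfl⟩
      simp only [hinv s hs, hinv t ht]
      rw [lpDist_three, lpDist_three, S_eq c hc0 hc s t hs ht]
  · intro P hP
    unfold IsPlane at hP
    have hlt : P.direction < ⊤ := by
      rw [lt_top_iff_ne_top]
      intro h
      rw [h] at hP
      simp at hP
    obtain ⟨f, hf0, hf⟩ := Submodule.exists_le_ker_of_lt_top P.direction hlt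
    have hne : (P : Set (Fin 3 → ℝ)).Nonempty := by
      by_contra h
      rw [Set.not_nonempty_iff_eq_empty, AffineSubspace.coe_eq_bot_iff] at h
      rw [h, AffineSubspace.direction_bot] at hP
      simp at hP
    obtain ⟨q, hq⟩ := hne
    have hfe : ∀ v : Fin 3 → ℝ, f v = f (Pi.single 0 1) * v 0 + f (Pi.single 1 1) * v 1
        + f (Pi.single 2 1) * v 2 := by
      intro v
      have hv : v = v 0 • Pi.single 0 1 + v 1 • Pi.single 1 1 + v 2 • Pi.single 2 1 := by
        funext i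
        fin_cases i <;> simp
      conv_lhs => rw [hv]
      simp only [map_add, map_smul, smul_eq_mul]
      ring
    have habc : ¬ (f (Pi.single 0 1) = 0 ∧ f (Pi.single 1 1) = 0 ∧ f (Pi.single 2 1) = 0) := by
      rintro ⟨h0, h1, h2⟩
      apply hf0
      apply LinearMap.ext
      intro v
      rw [hfe v, h0, h1, h2]
      simp
    obtain ⟨R, hR4, hR⟩ := plane_roots _ _ _ (f q) habc
    have hsub : yc '' Set.Ici 10 ∩ (P : Set (Fin 3 → ℝ)) ⊆ ((R.image yc : Finset (Fin 3 → ℝ)) :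
        Set (Fin 3 → ℝ)) := by
      rintro _ ⟨⟨t, ht, rfl⟩, hv⟩
      rw [Finset.coe_image]
      refine ⟨t, ?_, rfl⟩
      apply hR t ht
      have h1 : yc t -ᵥ q ∈ P.direction := AffineSubspace.vsub_mem_direction hv hq
      have h2 : f (yc t - q) = 0 := LinearMap.mem_ker.mp (hf h1)
      rw [map_sub] at h2
      rw [← hfe]
      linarith
    refine ⟨(Finset.finite_toSet _).subset hsub, ?_⟩
    calc (yc '' Set.Ici 10 ∩ (P : Set (Fin 3 → ℝ))).ncard
        ≤ ((R.image yc : Finset (Fin 3 → ℝ)) : Set (Fin 3 → ℝ)).ncard :=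
          Set.ncard_le_ncard hsub (Finset.finite_toSet _)
      _ = (R.image yc).card := Set.ncard_coe_finset _
      _ ≤ R.card := Finset.card_image_le
      _ ≤ 4 := hR4

end Pool.Agent.Results.MP_04b39a_gt.FiniteInEveryPlane
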